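import Pool.Agent.G9.Stmts

/-!
# Squad GNI, help for LOW: a character fixed by `σ` (helper64)
-/

set_option autoImplicit false

namespace Pool.Agent.G9.H64

open Finset

theorem exists_chr (F : Type) [Field F] [Fintype F] [CharP F 3] (s : F ≃+* F) :
    ∃ ψ : AddChar F ℂ, ψ ≠ 1 ∧ ∀ x, ψ (s x) = ψ x := by
  classical
  have h3 : Fact (Nat.Prime 3) := ⟨Nat.prime_three⟩
  let _ : Algebra (ZMod 3) F := ZMod.algebra F 3
  have hfin : FiniteDimensional (ZMod 3) F := Module.Finite.of_finite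
  obtain ⟨tr, htr⟩ : ∃ tr : F →+ ZMod 3, ∀ x, tr x = Algebra.trace (ZMod 3) F x :=
    ⟨(Algebra.trace (ZMod 3) F).toAddMonoidHom, fun x => rfl⟩
  refine ⟨(ZMod.stdAddChar (N := 3)).compAddMonoidHom tr, ?_, ?_⟩
  · intro h
    obtain ⟨x, hx⟩ := Algebra.trace_surjective (ZMod 3) F 1
    have h1 : (ZMod.stdAddChar (N := 3)) (tr x) = 1 := by
      have h2 := DFunLike.congr_fun h x
      simpa using h2
    rw [htr, hx] at h1
    have h4 : (ZMod.stdAddChar (N := 3)) (1 : ZMod 3) = (ZMod.stdAddChar (N := 3)) 0 := by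
      rw [h1, AddChar.map_zero_eq_one]
    have h5 := ZMod.injective_stdAddChar h4
    exact one_ne_zero h5
  · intro x
    have e : (s.toRingHom).comp (algebraMap (ZMod 3) F) = algebraMap (ZMod 3) F :=
      Subsingleton.elim _ _
    let f : F ≃ₐ[ZMod 3] F := AlgEquiv.ofRingEquiv (f := s) (fun r => RingHom.congr_fun e r)
    have h1 : Algebra.trace (ZMod 3) F (f x) = Algebra.trace (ZMod 3) F x :=
      Algebra.trace_eq_of_algEquiv f x
    have h2 : f x = s x := rfl
    rw [AddChar.compAddMonoidHom_apply, AddChar.compAddMonoidHom_apply, htr, htr, ← h2, h1]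

end Pool.Agent.G9.H64
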