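import Pool.Agent.G9.Stmts

/-!
# Squad GNI, row PAR: the parameters (helper64)
-/

set_option autoImplicit false

namespace Pool.Agent.G9.H64

open Pool.Agent.G9

theorem goodG_mono {r m : ℕ} {K K' : ℝ} (h : GoodG r m K) (hK : K ≤ K') : GoodG r m K' := by
  obtain ⟨V, fV, G, h1, h2, h3⟩ := h
  exact ⟨V, fV, G, h1, h2, fun S => (h3 S).trans (by linarith)⟩

/-- The general form. -/
theorem par_gen (hA : AlmStmt) (r a b : ℕ) (c1 : ℝ) (hb : 0 < b) (hab : a = b + 5) (hc : c1 ≤ 19)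
    (H : ∀ s : ℕ, Odd s → ∃ e : ℕ, ((3 : ℝ) ^ s) ^ a - c1 * ((3 : ℝ) ^ s) ^ b ≤ 2 * (e : ℝ) ∧
      2 * (e : ℝ) ≤ 3 * ((3 : ℝ) ^ s) ^ a ∧ GoodG r e (6 * ((3 : ℝ) ^ s) ^ b)) :
    ∃ c : ℝ, 0 < c ∧ ∀ m : ℕ, GoodG r m (c * (m : ℝ) ^ ((b : ℝ) / a)) := by
  have ha0 : 0 < a := by omega
  have haR : (0 : ℝ) < a := by exact_mod_cast ha0
  have hbR : (0 : ℝ) < b := by exact_mod_cast hb
  have h9 : (1 : ℝ) ≤ (9 : ℝ) ^ a := one_le_pow₀ (by norm_num)
  refine hA r ((b : ℝ) / a) (1 / (6 * 9 ^ a)) 6 (3 ^ (a + 1)) (by positivity) (by positivity) ?_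
    (by norm_num) ?_
  · rw [div_lt_one (by positivity)]
    linarith
  intro m hm
  -- the scale
  have hex : ∃ k, 2 * m < 3 * (3 ^ (2 * (k + 1) + 1)) ^ a := by
    refine ⟨m, ?_⟩
    have h2 : m < 2 ^ m := Nat.lt_two_pow_self
    have h3 : 2 ^ m ≤ (3 ^ (2 * (m + 1) + 1)) ^ a := by
      calc 2 ^ m ≤ 3 ^ m := Nat.pow_le_pow_left (by norm_num) m
        _ ≤ 3 ^ (2 * (m + 1) + 1) := Nat.pow_le_pow_right (by norm_num) (by omega)
        _ = (3 ^ (2 * (m + 1) + 1)) ^ 1 := (pow_one _).symm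
        _ ≤ _ := Nat.pow_le_pow_right (by positivity) ha0
    omega
  classical
  obtain ⟨k, hk⟩ : ∃ k, k = Nat.find hex := ⟨_, rfl⟩
  have hk1 : 2 * m < 3 * (3 ^ (2 * (k + 1) + 1)) ^ a := by
    rw [hk]
    exact Nat.find_spec hex
  have hk2 : 3 * (3 ^ (2 * k + 1)) ^ a ≤ 2 * m := by
    rcases Nat.eq_zero_or_pos k with h0 | h0
    · rw [h0]
      have e1 : 3 * (3 ^ (2 * 0 + 1)) ^ a = 3 ^ (a + 1) := by
        rw [pow_succ 3 a]
        norm_num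
        ring
      rw [e1]
      omega
    · have h1 := Nat.find_min hex (m := k - 1) (by omega)
      rw [Nat.sub_add_cancel h0] at h1
      omega
  obtain ⟨e, he1, he2, he3⟩ := H (2 * k + 1) ⟨k, rfl⟩
  obtain ⟨q, hq⟩ : ∃ q : ℝ, q = (3 : ℝ) ^ (2 * k + 1) := ⟨_, rfl⟩
  rw [← hq] at he1 he2 he3
  have hq3 : 3 ≤ q := by
    rw [hq]
    calc (3 : ℝ) = 3 ^ 1 := by norm_num
      _ ≤ _ := pow_le_pow_right₀ (by norm_num) (by omega)
  have hm1 : 3 * q ^ a ≤ 2 * m := by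
    rw [hq]
    exact_mod_cast hk2
  have hm2 : 2 * (m : ℝ) < 3 * (9 ^ a * q ^ a) := by
    have h1 : (2 * (m : ℝ)) < 3 * ((3 : ℝ) ^ (2 * (k + 1) + 1)) ^ a := by exact_mod_cast hk1
    have h2 : ((3 : ℝ) ^ (2 * (k + 1) + 1)) ^ a = 9 ^ a * q ^ a := by
      rw [hq, ← mul_pow]
      congr 1
      ring
    rwa [h2] at h1
  have hqb : 0 < q ^ b := by positivity
  have hqa : 0 < q ^ a := by positivity
  have hqab : q ^ a = q ^ b * q ^ 5 := by rw [hab, pow_add]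
  have hq5 : (243 : ℝ) ≤ q ^ 5 := by
    calc (243 : ℝ) = 3 ^ 5 := by norm_num
      _ ≤ q ^ 5 := pow_le_pow_left₀ (by norm_num) hq3 5
  have h1 : c1 * q ^ b ≤ q ^ a / 2 := by
    have h2 : c1 * q ^ b ≤ 19 * q ^ b := mul_le_mul_of_nonneg_right hc hqb.le
    have h3 : q ^ b * 243 ≤ q ^ b * q ^ 5 := mul_le_mul_of_nonneg_left hq5 hqb.le
    rw [hqab]
    linarith
  have h4 : q ^ a / 4 ≤ (e : ℝ) := by linarith
  refine ⟨e, ?_, ?_, ?_, ?_⟩
  · have : (0 : ℝ) < e := by linarith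
    exact_mod_cast this
  · have : (e : ℝ) ≤ m := by linarith
    exact_mod_cast this
  · have h5 : (0 : ℝ) < 9 ^ a := by positivity
    rw [one_div, inv_mul_le_iff₀ (by positivity)]
    have h6 : 6 * 9 ^ a * (q ^ a / 4) ≤ 6 * 9 ^ a * (e : ℝ) :=
      mul_le_mul_of_nonneg_left h4 (by positivity)
    linarith
  · refine goodG_mono he3 ?_
    have h5 : q ^ b = (q ^ a) ^ ((b : ℝ) / a) := by
      rw [← Real.rpow_natCast q b, ← Real.rpow_natCast q a, ← Real.rpow_mul (by linarith)]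
      congr 1
      field_simp
    have h6 : q ^ a ≤ (m : ℝ) := by linarith
    rw [h5]
    have h7 : (q ^ a) ^ ((b : ℝ) / a) ≤ (m : ℝ) ^ ((b : ℝ) / a) :=
      Real.rpow_le_rpow hqa.le h6 (by positivity)
    linarith

/-- PAR. -/
theorem par (hG : GrqStmt) (hA : AlmStmt) : ParStmt := by
  constructor
  · obtain ⟨c, hc, h⟩ := par_gen hA 9 75 70 13 (by norm_num) (by norm_num) (by norm_num)
      (fun s hs => (hG s hs).1)
    refine ⟨c, hc, fun m => ?_⟩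
    have h1 := h m
    have e1 : ((70 : ℕ) : ℝ) / ((75 : ℕ) : ℝ) = 14 / 15 := by norm_num
    rw [e1] at h1
    exact h1
  · obtain ⟨c, hc, h⟩ := par_gen hA 11 95 90 19 (by norm_num) (by norm_num) (by norm_num)
      (fun s hs => (hG s hs).2)
    refine ⟨c, hc, fun m => ?_⟩
    have h1 := h m
    have e1 : ((90 : ℕ) : ℝ) / ((95 : ℕ) : ℝ) = 18 / 19 := by norm_num
    rw [e1] at h1
    exact h1

end Pool.Agent.G9.H64
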